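import Pool.Agent.Q278.PawCone

/-!
# MP_3e1815: mutual free chromatic numbers at most two do not imply chromatic relatedness

`FreeColouring`, `ChiFreeLe`, `ChiFreeEq`, `RelatedAt` and `paw` are defined in
`Pool.Agent.Q278.PawCR`.
-/

namespace Pool.Agent.Results.MP_3e1815_co.PawCounterexample

open Q278.PawCR

/-- `F ≍ G`: `F ≍_n G` for every `n ≥ 1`. -/
def Related {U V : Type} (F : SimpleGraph U) (G : SimpleGraph V) : Prop :=
  ∀ n : ℕ, 1 ≤ n → RelatedAt n F G

theorem not_relatedAt {X V : Type} [Finite X] (G : SimpleGraph V) (T : SimpleGraph X)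
    (htri : ∀ x y z, T.Adj x y → T.Adj y z → ¬ T.Adj x z) (hT : ¬ T.Colorable 6)
    (e7 : (⊤ : SimpleGraph (Fin 7)) ↪g G) (eT : T ↪g G) {n : ℕ} (hn : 3 ≤ n)
    (hpaw : n = 3 ∨ Nonempty (paw ↪g G)) : ¬ RelatedAt n paw G := by
  rintro ⟨W, -, H, h1, h2⟩
  have h3 := h2.2 (le_pred G T htri hT e7 eT hn hpaw h1.1)
  omega

/-- **Main theorem.** Write `P` for the paw (a triangle with a pendant vertex).

(1) There is a finite connected graph `G` with `χ(P : -G) ≤ 2` and `χ(G : -P) ≤ 2` such that no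
`n ≥ 3` satisfies `P ≍_n G`; so the implication of Q1 fails even for connected graphs.

(2) There is a finite graph `G` such that neither of `P`, `G` is an induced subgraph of the other
(so `χ(P : -G) = χ(G : -P) = 1`), and `P ≍_3 G` fails.

(3) In particular the statement of Q1 is false. -/
theorem result :
    (∃ (V : Type) (_ : Finite V) (G : SimpleGraph V), G.Connected ∧ paw.Connected ∧
      ChiFreeLe paw G 2 ∧ ChiFreeLe G paw 2 ∧ ∀ n : ℕ, 3 ≤ n → ¬ RelatedAt n paw G) ∧
    (∃ (V : Type) (_ : Finite V) (G : SimpleGraph V), IsEmpty (paw ↪g G) ∧ IsEmpty (G ↪g paw) ∧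
      ¬ RelatedAt 3 paw G) ∧
    ¬ (∀ (U V : Type) (_ : Finite U) (_ : Finite V) (_ : Nontrivial U) (_ : Nontrivial V)
        (F : SimpleGraph U) (G : SimpleGraph V),
        ChiFreeLe F G 2 → ChiFreeLe G F 2 → Related F G) := by
  obtain ⟨X, hX, T, htri, hT⟩ := exists_T
  have hne : Nonempty X := by
    by_contra h
    rw [not_nonempty_iff] at h
    exact hT ⟨SimpleGraph.Coloring.mk (fun x => (h.false x).elim) (fun {x} => (h.false x).elim)⟩
  obtain ⟨x⟩ := hne
  -- no graph containing `K_7` lies in the paw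
  have hsmall : ∀ {V : Type} (G : SimpleGraph V), ((⊤ : SimpleGraph (Fin 7)) ↪g G) →
      IsEmpty (G ↪g paw) := by
    intro V G e
    refine ⟨fun f => ?_⟩
    have h := Fintype.card_le_of_injective (fun i => f (e i)) (f.injective.comp e.injective)
    simp at h
  let e7 : (⊤ : SimpleGraph (Fin 7)) ↪g G0 T := SimpleGraph.Embedding.sumInl
  let eT : T ↪g G0 T := SimpleGraph.Embedding.sumInr
  have h1 : ∀ n : ℕ, 3 ≤ n → ¬ RelatedAt n paw (cone (G0 T)) := fun n hn =>
    not_relatedAt (cone (G0 T)) T htri hT (e7.trans (coneEmb _)) (eT.trans (coneEmb _)) hn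
      (Or.inr (cone_has_paw T x))
  have h2 : ChiFreeLe paw (cone (G0 T)) 2 :=
    ⟨fun _ => 0, fun _ => ⟨fun f => (hsmall (cone (G0 T)) (e7.trans (coneEmb _))).false
      (f.trans (SimpleGraph.Embedding.induce _))⟩⟩
  refine ⟨⟨_, inferInstance, cone (G0 T), cone_connected _, paw_connected, h2,
    cone_le_two T htri, h1⟩, ⟨_, inferInstance, G0 T, G0_paw_free T htri, hsmall _ e7,
    not_relatedAt (G0 T) T htri hT e7 eT le_rfl (Or.inl rfl)⟩, ?_⟩
  intro hall
  have hnt : Nontrivial (Option (Fin 7 ⊕ X)) := ⟨none, some (Sum.inr x), by simp⟩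
  exact h1 3 le_rfl (hall _ _ inferInstance inferInstance inferInstance hnt paw (cone (G0 T)) h2
    (cone_le_two T htri) 3 (by norm_num))

end Pool.Agent.Results.MP_3e1815_co.PawCounterexample
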